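import Pool.Agent.Q235.TU4

/-!
# Rescaled Turán densities grow at most logarithmically

`turanNumber n k r` is the least number of `r`-subsets of an `n`-set such that every `k`-subset
contains one of them, `turanDensity k r` is the limit `t(k,r)` of `turanNumber n k r / C(n,r)`,
`rescaled k r = (k-1)^(r-1) / r! * t(k,r)` is `t_*(k,r)`, and `tStar r` is the infimum of
`t_*(k,r)` over `k > r`, which is the limit `t_*(r)`.

We prove `t_*(r) ≤ ln r + ln ln r + 14` for all `r ≥ 3`; in particular
`t_*(r) ≤ (1 + o(1)) ln r` as `r → ∞`.

Proof. Let `d` be about `ln r`, let `k - 1 = 2 r² d a` with a large number `a`, and divide the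
vertices into `N = 8 r d (k - 1)` cells. The greedy algorithm gives a family `R₁` of `r`-sets of
cells which hits all sets of `k - 2ra` cells, a family `R₂` of sets of about `r / 2` cells which
hits all sets of `ra + 1` cells, and a family `R₃` of sets of about `r / 3` cells which hits all
sets of `a + 1` cells. Take the `r`-sets of vertices with one vertex in each cell of a member of
`R₁`, those with two vertices in the cells of a member of `R₂`, those with three vertices in the
cells of a member of `R₃`, and those inside one cell. If a set of `k` vertices contains none of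
the last kind then it has less than `r` vertices in every cell, so it meets `k - 2ra` cells, or
meets `ra + 1` cells in two or more vertices, or meets `a + 1` cells in three or more vertices.
The first family contributes about `(1 - 1/(rd))^(-r) ln (8 e r d)` to the rescaled density, the
others contribute little because `N` is larger than `r (k - 1)`.
-/

set_option autoImplicit false
open Finset Filter Topology

namespace Pool.Agent.Results.MP_ea5d3c_co.LogBound

/-- `E` is a family of `r`-sets and every `k`-set of vertices contains a member of `E`: the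
`r`-graph `E` has independence number less than `k`. -/
def Covers {V : Type} (k r : ℕ) (E : Finset (Finset V)) : Prop :=
  (∀ e ∈ E, e.card = r) ∧ ∀ S : Finset V, S.card = k → ∃ e ∈ E, e ⊆ S

/-- The Turán number `T(n,k,r)`. -/
noncomputable def turanNumber (n k r : ℕ) : ℕ :=
  sInf {m | ∃ E : Finset (Finset (Fin n)), Covers k r E ∧ E.card = m}

/-- The Turán density `t(k,r)`, the limit of `T(n,k,r) / C(n,r)`. -/
noncomputable def turanDensity (k r : ℕ) : ℝ :=
  limUnder atTop fun n : ℕ => (turanNumber n k r : ℝ) / (n.choose r : ℝ)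

/-- The rescaled Turán density `t_*(k,r) = (k-1)^(r-1) / r! * t(k,r)`. -/
noncomputable def rescaled (k r : ℕ) : ℝ :=
  ((k : ℝ) - 1) ^ (r - 1) / (r.factorial : ℝ) * turanDensity k r

/-- `t_*(r)`, the infimum of `t_*(k,r)` over `k > r`. -/
noncomputable def tStar (r : ℕ) : ℝ :=
  ⨅ k : {k : ℕ // r < k}, rescaled k r

theorem isLimit {k r : ℕ} (hrk : r ≤ k) :
    Tendsto (fun n : ℕ => (turanNumber n k r : ℝ) / (n.choose r : ℝ)) atTop
      (𝓝 (turanDensity k r)) := by
  obtain ⟨t, ht⟩ := Pool.Agent.TH173.RT.exists_dens hrk
  have h : Tendsto (fun n : ℕ => (turanNumber n k r : ℝ) / (n.choose r : ℝ)) atTop (𝓝 t) := ht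
  unfold turanDensity
  rw [h.limUnder_eq]
  exact h

theorem rescaled_nonneg {k r : ℕ} (hrk : r < k) : 0 ≤ rescaled k r := by
  have h1 : 0 ≤ turanDensity k r := by
    refine ge_of_tendsto' (isLimit hrk.le) fun n => ?_
    positivity
  have h2 : (0 : ℝ) ≤ (k : ℝ) - 1 := by
    have : (1 : ℝ) ≤ (k : ℝ) := by exact_mod_cast (show 1 ≤ k by omega)
    linarith
  unfold rescaled
  positivity

theorem result :
    (∀ k r : ℕ, r < k →
      Tendsto (fun n : ℕ => (turanNumber n k r : ℝ) / (n.choose r : ℝ)) atTop
        (𝓝 (turanDensity k r))) ∧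
    ∀ r : ℕ, 3 ≤ r → tStar r ≤ Real.log r + Real.log (Real.log r) + 14 := by
  refine ⟨fun k r h => isLimit h.le, ?_⟩
  intro r hr
  obtain ⟨d, hd, hS⟩ := Pool.Agent.Q235.TU.S_le' hr
  refine le_trans ?_ hS
  have h := Pool.Agent.Q235.TU.le_S (A := 2 * r ^ 2 * d) (L := 8 * r * d) (r := r) (c := tStar r)
    hr (by nlinarith) (by nlinarith) ?_
  · push_cast at h
    exact h
  · intro k hk t ht
    have h1 : turanDensity k r = t :=
      tendsto_nhds_unique (isLimit hk.le) ht
    have h2 : tStar r ≤ rescaled k r := by
      unfold tStar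
      refine ciInf_le (f := fun k : {k : ℕ // r < k} => rescaled k r) ?_ ⟨k, hk⟩
      refine ⟨0, ?_⟩
      rintro _ ⟨k', rfl⟩
      exact rescaled_nonneg k'.2
    refine h2.trans (le_of_eq ?_)
    rw [rescaled, h1]

end Pool.Agent.Results.MP_ea5d3c_co.LogBound
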